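import Mathlib
import Pool.Agent.D0H54.NS.Stm

/-!
# NS, module PRIM: primitive vectors in lines
-/

set_option autoImplicit false

namespace Pool.Agent.D0H21.NS

open Pool.Agent.D0H54.NS

/-- two proportional primitive vectors with positive last coordinates are equal -/
theorem prim_eq {n : ℕ} (v v' : (Fin (n + 1) → ℤ) × ℤ) (h0 : 0 < v.2) (h0' : 0 < v'.2)
    (hp : ∀ d : ℤ, (∀ j, d ∣ v.1 j) → d ∣ v.2 → IsUnit d)
    (hp' : ∀ d : ℤ, (∀ j, d ∣ v'.1 j) → d ∣ v'.2 → IsUnit d)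
    (h : ∀ j, v'.2 * v.1 j = v.2 * v'.1 j) : v = v' := by
  have hg : 0 < Int.gcd v.2 v'.2 := Int.gcd_pos_of_ne_zero_left _ h0.ne'
  obtain ⟨a, b, hab, ha, hb⟩ := Int.exists_gcd_one hg
  obtain ⟨g, hgd⟩ : ∃ g : ℤ, g = (Int.gcd v.2 v'.2 : ℤ) := ⟨_, rfl⟩
  rw [← hgd] at ha hb
  have hg0 : 0 < g := by rw [hgd]; exact_mod_cast hg
  have hcop : IsCoprime a b := Int.isCoprime_iff_gcd_eq_one.2 hab
  have ha0 : 0 < a := by
    rw [ha] at h0
    exact (mul_pos_iff_of_pos_left hg0).1 (by linarith [h0, mul_comm a g])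
  have hb0 : 0 < b := by
    rw [hb] at h0'
    exact (mul_pos_iff_of_pos_left hg0).1 (by linarith [h0', mul_comm b g])
  have h1 : ∀ j, b * v.1 j = a * v'.1 j := by
    intro j
    have h2 := h j
    rw [ha, hb] at h2
    apply mul_left_cancel₀ hg0.ne'
    linear_combination h2
  have hau : a = 1 := by
    have h3 := hp a (fun j => hcop.dvd_of_dvd_mul_left (Dvd.intro _ (h1 j).symm)) (by
      rw [ha]
      exact dvd_mul_right _ _)
    rcases Int.isUnit_iff.1 h3 with h4 | h4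
    · exact h4
    · omega
  have hbu : b = 1 := by
    have h3 := hp' b (fun j => hcop.symm.dvd_of_dvd_mul_left (Dvd.intro _ (h1 j))) (by
      rw [hb]
      exact dvd_mul_right _ _)
    rcases Int.isUnit_iff.1 h3 with h4 | h4
    · exact h4
    · omega
  rw [hau, hbu] at h1
  apply Prod.ext
  · funext j
    have := h1 j
    rw [one_mul, one_mul] at this
    exact this
  · rw [ha, hb, hau, hbu]

theorem t_PRIM : S_PRIM := by
  classical
  intro n T hT S hS
  choose! W hW hvW using fun v hv => (hS v hv).2.2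
  have hinj : Set.InjOn W S := by
    intro v hv v' hv' he
    obtain ⟨h0, hp, -⟩ := hS v hv
    obtain ⟨h0', hp', -⟩ := hS v' hv'
    apply prim_eq v v' h0 h0' hp hp'
    have h1 := hvW v hv
    have h2 := hvW v' hv'
    rw [← he] at h2
    obtain ⟨x, hx⟩ := (finrank_le_one_iff (K := ℚ) (V := W v)).1 (hT _ (hW v hv))
    obtain ⟨c, hc⟩ := hx ⟨_, h1⟩
    obtain ⟨c', hc'⟩ := hx ⟨_, h2⟩
    have e1 : c • (x : (Fin (n + 1) → ℚ) × (Fin 1 → ℚ)) = toQ v.1 v.2 := congrArg Subtype.val hc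
    have e2 : c' • (x : (Fin (n + 1) → ℚ) × (Fin 1 → ℚ)) = toQ v'.1 v'.2 := congrArg Subtype.val hc'
    have e3 : c * (x : (Fin (n + 1) → ℚ) × (Fin 1 → ℚ)).2 0 = v.2 := congrFun (congrArg Prod.snd e1) 0
    have e4 : c' * (x : (Fin (n + 1) → ℚ) × (Fin 1 → ℚ)).2 0 = v'.2 := congrFun (congrArg Prod.snd e2) 0
    intro j
    have e5 : c * (x : (Fin (n + 1) → ℚ) × (Fin 1 → ℚ)).1 j = v.1 j := congrFun (congrArg Prod.fst e1) j
    have e6 : c' * (x : (Fin (n + 1) → ℚ) × (Fin 1 → ℚ)).1 j = v'.1 j := congrFun (congrArg Prod.fst e2) j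
    have e7 : (v'.2 : ℚ) * v.1 j = v.2 * v'.1 j := by
      rw [← e3, ← e4, ← e5, ← e6]
      ring
    exact_mod_cast e7
  have hmap : Set.MapsTo W S (T : Set _) := fun v hv => hW v hv
  refine ⟨Set.Finite.of_injOn hmap hinj T.finite_toSet, ?_⟩
  rw [← Set.ncard_coe_finset T]
  exact Set.ncard_le_ncard_of_injOn W hmap hinj T.finite_toSet

end Pool.Agent.D0H21.NS
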