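import Mathlib
import Pool.Agent.D0H54.NS.Stm

/-!
# NS, module SIEGEL: the weighted Siegel lemma
-/

set_option autoImplicit false

namespace Pool.Agent.D0H21.NS

open Pool.Agent.D0H54.NS

theorem t_SIEGEL : S_SIEGEL := by
  classical
  intro m d hmd c h hh hc
  have hd : 1 ≤ d := by omega
  have hdR : (1 : ℝ) ≤ d := by exact_mod_cast hd
  obtain ⟨n, hn⟩ : ∃ n, n = d - m := ⟨_, rfl⟩
  have hn0 : n ≠ 0 := by omega
  have hdn : (d : ℝ) - m = n := by
    rw [hn, Nat.cast_sub hmd.le]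
  have hh0 : ∀ i, 0 < h i := fun i => lt_of_lt_of_le one_pos (hh i)
  obtain ⟨P, hP⟩ : ∃ P, P = ∏ i, h i := ⟨_, rfl⟩
  have hP1 : 1 ≤ P := by
    rw [hP]
    calc (1 : ℝ) = ∏ _i : Fin d, (1 : ℝ) := by rw [Finset.prod_const_one]
      _ ≤ ∏ i, h i := Finset.prod_le_prod (fun _ _ => zero_le_one) (fun i _ => hh i)
  rw [hdn, ← hP]
  obtain ⟨A, hA⟩ : ∃ A : ℝ, A = (3 * d : ℝ) ^ m * P := ⟨_, rfl⟩
  rw [← hA]
  have hA1 : 1 ≤ A := by
    rw [hA]
    have h3 : (1 : ℝ) ≤ 3 * d := by linarith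
    have h4 : (1 : ℝ) ≤ (3 * d : ℝ) ^ m := one_le_pow₀ h3
    nlinarith
  obtain ⟨T, hT⟩ : ∃ T : ℝ, T = A ^ (1 / (n : ℝ)) := ⟨_, rfl⟩
  rw [← hT]
  have hT1 : 1 ≤ T := by
    rw [hT]
    exact Real.one_le_rpow hA1 (by positivity)
  have hTn : T ^ n = A := by
    rw [hT, one_div]
    exact Real.rpow_inv_natCast_pow (by linarith) hn0
  have hT0 : 0 < T := by linarith
  obtain ⟨Bx, hBx⟩ : ∃ Bx : Finset (Fin d → ℕ),
    Bx = Fintype.piFinset (fun i => Finset.range (⌊T / h i⌋₊ + 1)) := ⟨_, rfl⟩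
  obtain ⟨Tg, hTg⟩ : ∃ Tg : Finset (Fin m → ℤ),
    Tg = Fintype.piFinset (fun _ => Finset.Icc (-⌊(d : ℝ) * T⌋) ⌊(d : ℝ) * T⌋) := ⟨_, rfl⟩
  have hdT : 1 ≤ (d : ℝ) * T := by nlinarith
  have h1 : (Tg.card : ℝ) ≤ (3 * (d * T)) ^ m := by
    rw [hTg, Fintype.card_piFinset]
    push_cast
    rw [Finset.prod_const, Finset.card_univ, Fintype.card_fin]
    apply pow_le_pow_left₀ (by positivity)
    rw [Int.card_Icc]
    have h5 : (0 : ℤ) ≤ ⌊(d : ℝ) * T⌋ := Int.floor_nonneg.2 (by linarith)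
    have h6 : ((⌊(d : ℝ) * T⌋ + 1 - -⌊(d : ℝ) * T⌋).toNat : ℤ) = ⌊(d : ℝ) * T⌋ + 1 - -⌊(d : ℝ) * T⌋ :=
      Int.toNat_of_nonneg (by omega)
    have h7 : (((⌊(d : ℝ) * T⌋ + 1 - -⌊(d : ℝ) * T⌋).toNat : ℕ) : ℝ) =
        ((⌊(d : ℝ) * T⌋ + 1 - -⌊(d : ℝ) * T⌋ : ℤ) : ℝ) := by exact_mod_cast h6
    rw [h7]
    push_cast
    have h8 := Int.floor_le ((d : ℝ) * T)
    linarith
  have h2 : (T ^ d / P : ℝ) < (Bx.card : ℝ) := by
    rw [hBx, Fintype.card_piFinset]
    push_cast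
    have e1 : T ^ d / P = ∏ i : Fin d, T / h i := by
      rw [Finset.prod_div_distrib, Finset.prod_const, Finset.card_univ, Fintype.card_fin, hP]
    rw [e1]
    have : Nonempty (Fin d) := ⟨⟨0, hd⟩⟩
    apply Finset.prod_lt_prod_of_nonempty
    · intro i _
      exact div_pos hT0 (hh0 i)
    · intro i _
      rw [Finset.card_range]
      push_cast
      exact Nat.lt_floor_add_one _
    · exact Finset.univ_nonempty
  have h3 : (3 * (d * T)) ^ m = T ^ d / P := by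
    have e1 : d = n + m := by omega
    have e2 : T ^ d = T ^ n * T ^ m := by rw [← pow_add, ← e1]
    rw [e2, hTn, hA, eq_div_iff (by positivity), ← mul_assoc, mul_pow]
    ring
  have hcard : Tg.card < Bx.card := by
    have : (Tg.card : ℝ) < (Bx.card : ℝ) := lt_of_le_of_lt (h1.trans h3.le) h2
    exact_mod_cast this
  have hle : ∀ t ∈ Bx, ∀ i, (t i : ℝ) ≤ T / h i := by
    intro t ht i
    rw [hBx, Fintype.mem_piFinset] at ht
    have := Finset.mem_range.1 (ht i)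
    exact (Nat.cast_le.2 (Nat.lt_succ_iff.1 this)).trans (Nat.floor_le (div_pos hT0 (hh0 i)).le)
  obtain ⟨t, ht, t', ht', hne, heq⟩ := Finset.exists_ne_map_eq_of_card_lt_of_maps_to
    (f := fun (t : Fin d → ℕ) (j : Fin m) => ∑ i, (t i : ℤ) * c i j) hcard (by
      intro t ht
      rw [Finset.mem_coe] at ht ⊢
      rw [hTg, Fintype.mem_piFinset]
      intro j
      have h5 : |((∑ i, (t i : ℤ) * c i j : ℤ) : ℝ)| ≤ d * T := by
        push_cast
        refine (Finset.abs_sum_le_sum_abs _ _).trans ?_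
        have h6 : ∀ i ∈ (Finset.univ : Finset (Fin d)), |(t i : ℝ) * (c i j : ℝ)| ≤ T := by
          intro i _
          rw [abs_mul, abs_of_nonneg (Nat.cast_nonneg _)]
          calc (t i : ℝ) * |(c i j : ℝ)| ≤ (T / h i) * h i :=
                mul_le_mul (hle t ht i) (hc i j) (abs_nonneg _) (div_pos hT0 (hh0 i)).le
            _ = T := div_mul_cancel₀ _ (hh0 i).ne'
        refine (Finset.sum_le_card_nsmul _ _ _ h6).trans ?_
        rw [Finset.card_univ, Fintype.card_fin, nsmul_eq_mul]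
      rw [abs_le] at h5
      rw [Finset.mem_Icc]
      constructor
      · rw [neg_le]
        apply Int.le_floor.2
        push_cast
        push_cast at h5
        linarith [h5.1]
      · exact Int.le_floor.2 h5.2)
  refine ⟨fun i => (t i : ℤ) - t' i, ?_, ?_, ?_⟩
  · intro h0
    apply hne
    funext i
    have := congrFun h0 i
    simp only [Pi.zero_apply] at this
    omega
  · intro j
    have h5 : ∑ i, (t i : ℤ) * c i j = ∑ i, (t' i : ℤ) * c i j := congrFun heq j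
    simp only [sub_mul, Finset.sum_sub_distrib]
    rw [h5, sub_self]
  · intro i
    have h5 := hle t ht i
    have h6 := hle t' ht' i
    have h7 : (0 : ℝ) ≤ t i := Nat.cast_nonneg _
    have h8 : (0 : ℝ) ≤ t' i := Nat.cast_nonneg _
    have h9 : |(((t i : ℤ) - t' i : ℤ) : ℝ)| ≤ T / h i := by
      push_cast
      rw [abs_le]
      constructor <;> linarith
    calc _ ≤ T / h i * h i := mul_le_mul_of_nonneg_right h9 (hh0 i).le
      _ = T := div_mul_cancel₀ _ (hh0 i).ne'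

end Pool.Agent.D0H21.NS
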